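import Mathlib
import Pool.Agent.T9h37.NK.Defs
import Pool.Agent.T9h37.BI.Defs
import Pool.Agent.T9h37.CT.FdDefs

/-!
# Tensor products with abelian varieties whose factors have dimension one or an odd prime: definitions
-/

set_option autoImplicit false

open CategoryTheory AlgebraicGeometry

universe u v

namespace Pool.Agent.T9h37.NP

open Pool.Agent.H914 Pool.Agent.H914.VarClass Pool.Agent.H914.VarClass.Obj
  Pool.Agent.W492.BB Pool.Agent.W484.CK Pool.Agent.T9h37.NK
open Pool.Agent.W495.TA (RedAV)
open Pool.Agent.T9h37.BI (Apart IsSS)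
open Pool.Agent.T9h37.CT (NoQuadratic)

noncomputable section

/-! ### Abelian varieties over finite fields -/

section honda

variable {p : ℕ} [Fact p.Prime] {ν : PadicAlgCl p ≃+* ℂ}

/-- The CM field of the factor `i` of `Z`. -/
abbrev fld (Z : RedAV p ν) (i : Z.X.I) : Type := (Z.X.factor i).E

/-- The CM field `E` has degree two, or it has degree `2 ℓ`, where `ℓ` is an odd prime number, and contains
no imaginary quadratic field. -/
def IsPrimeField (E : Type) [Field E] [NumberField E] : Prop :=
  Module.finrank ℚ E = 2 ∨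
    ∃ ℓ : ℕ, ℓ.Prime ∧ ℓ ≠ 2 ∧ Module.finrank ℚ E = 2 * ℓ ∧ NoQuadratic E

/-- The factors of `Z` are not supersingular, they are elliptic curves or have odd prime dimensions, and in
the latter case their CM fields contain no imaginary quadratic field (`IsPrimeField`); and the CM fields
of any two factors are independent (`Apart`; this holds for instance if the dimensions are different). -/
structure HasPrimeFactors (Z : RedAV p ν) : Prop where
  field : ∀ i, IsPrimeField (fld Z i)
  notSupersingular : ∀ i, ¬ IsSS p Z.a (Z.π i)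
  apart : ∀ i k, i ≠ k → Apart (fld Z i) (fld Z k)

end honda

/-! ### Chow groups and cohomology -/

variable {k : Type u} [Field k] {𝒱 : VarClass k} {C : TheoryData.{u, v, 0} 𝒱 ℚ} {K : Type}
  [Field K] (H : WeilTheoryData.{u, v, 0} C K) {A Y : 𝒱.Obj}
  {p : ℕ} [Fact p.Prime] {ν : PadicAlgCl p ≃+* ℂ}

/-- `c` is an eigenvector of `π` in `H^1(A)` with the eigenvalue `ψ (π i) ^ s`, where `π i`, an element of
the CM field `E i`, is the Frobenius number of a factor of `Z`, and `ψ` is an embedding of `E i` in `K`. -/
def IsFrobeniusVector (Z : RedAV p ν) (s : ℕ) (π : A ⟶ A) (c : H.A A) : Prop :=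
  H.Deg 1 c ∧ ∃ (i : Z.X.I) (ψ : fld Z i →+* K), H.up π c = (ψ (Z.π i)) ^ s • c

/-- `π` is the Frobenius endomorphism of the abelian variety `A` over the field with `Q = (p ^ a) ^ s`
elements, which is isogenous to a product of powers of the factors of the abelian variety `Z` over the
field with `p ^ a` elements, after the base change: the cohomology of `A` is generated by `H^1(A)`, whose
elements anticommute, and which is spanned by eigenvectors as in `IsFrobeniusVector`; moreover the
classes in `H^2(A)` on which `π` acts as multiplication by `Q` are linear combinations of classes of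
divisors (Tate). -/
structure IsProductOfFactors (Z : RedAV p ν) (s : ℕ) (π : A ⟶ A) : Prop where
  pos : 0 < s
  frobenius : IsFrobenius C π ((p ^ Z.a) ^ s)
  generated : IsGenerated H A
  anticomm : IsAnticommutative H A
  spanned : ∀ c : H.A A, H.Deg 1 c → InSpan H (IsFrobeniusVector H Z s π) c
  tate : ∀ c : H.A A, H.Deg 2 c → H.up π c = (((p ^ Z.a) ^ s : ℕ) : K) • c →
    InSpan H (IsDivisorClass H) c

/-- The subfield of `K` generated by the conjugates of `ρ`, the roots in `K` of the minimal polynomial of
`ρ` over `ℚ`: the Galois closure of `ℚ(ρ)`. -/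
def conjField {K : Type*} [Field K] [CharZero K] (ρ : K) : Subfield K :=
  Subfield.closure {z : K | Polynomial.aeval z (minpoly ℚ ρ) = 0}

/-- For some `n > 0` none of the CM fields of the factors of `Z` is contained in the Galois closure of
`ℚ(ρ ^ n)`. -/
def IsOutside [CharZero K] (Z : RedAV p ν) (ρ : K) : Prop :=
  ∃ n : ℕ, 0 < n ∧ ∀ (i : Z.X.I) (ψ : fld Z i →+* K), ∃ x, ψ x ∉ conjField (ρ ^ n)

/-- The assumptions on `𝒜 = (Y, e')` relative to the abelian varieties `A` and `Z`, where `πA` and `πY` are the
Frobenius endomorphisms of `A` and `Y`: `e'` is an idempotent, the Frobenius endomorphism `πA × πY` of `A × Y`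
acts on the Chow groups as expected, and `πY` on the cohomology, products of sufficiently many
homologically trivial endomorphisms of the noncommutative motive of `A × Y` are zero, and the
eigenvalues that occur in `𝒜` satisfy `IsOutside`. -/
structure IsOutsideOf [CharZero K] (Z : RedAV p ν) (πA : A ⟶ A) (Q : ℕ) (πY : Y ⟶ Y)
    (e' : C.A (Y.prod Y)) : Prop where
  idempotent : IsIdempotent C e'
  frobenius : IsFrobenius C (prodMap πA πY) Q
  algebraic : HasAlgebraicEigenvalues H πY
  nilpotent : ProductsVanish H (A.prod Y)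
  outside : ∀ ρ : K, Occurs H πY e' ρ → IsOutside Z ρ

/-- The conclusion for the direct factor `𝒳 = (A, e)` of `perf(A)`: `K_0(𝒳)_ℚ` has a finite basis
`D j` and its Euler pairing is nondegenerate, and for all `𝒜 = (Y, e')` as in `IsOutsideOf` the
Kunneth formula `K_0(𝒳 ⊗ 𝒜)_ℚ = ⨁ D j × K_0(𝒜)_ℚ` holds, and the same for the kernels of the Euler
pairings, and, if `K_0(𝒳)_ℚ` is not zero, the Euler pairing of `𝒳 ⊗ 𝒜` is nondegenerate if and only if
the one of `𝒜` is. -/
def KunnethForOutside [CharZero K] (Z : RedAV p ν) (π : A ⟶ A) (Q : ℕ) (e : C.A (A.prod A)) :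
    Prop :=
  ∃ (J : Type) (_ : Fintype J) (D : J → C.A A), IsBasisOf C e D ∧ IsNondegenerate H e ∧
    ∀ (Y : 𝒱.Obj) (πY : Y ⟶ Y) (e' : C.A (Y.prod Y)), IsOutsideOf H Z π Q πY e' →
      TensorKunneth H e e' D ∧
        (Nonempty J → (IsNondegenerate H (tensor C e e') ↔ IsNondegenerate H e'))

end

end Pool.Agent.T9h37.NP
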