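import Pool.Agent.T9h37.NM.Main

/-!
# Abelian varieties such that all relations between the eigenvalues contain a trivial pair
-/

set_option autoImplicit false
set_option linter.unusedSectionVars false

open CategoryTheory AlgebraicGeometry

universe u v w

namespace Pool.Agent.T9h37.NP

open Module Polynomial Pool.Agent.H914 Pool.Agent.H914.VarClass Pool.Agent.H914.VarClass.Obj
  Pool.Agent.W492.BB Pool.Agent.W550.Corr Pool.Agent.W484.TB Pool.Agent.W484.HS Pool.Agent.W484.CK
  Pool.Agent.W484 Pool.Agent.T9h37.NK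

variable {k : Type u} [Field k] {𝒱 : VarClass k} {C : TheoryData.{u, v, 0} 𝒱 ℚ} {K : Type w}
  [Field K] [CharZero K] {H : WeilTheoryData.{u, v, w} C K} [hC : IsChow C] [hH : IsWeil H]
  {A Y : 𝒱.Obj} {π : A ⟶ A} {Q : ℕ} {X : Type*} {val : X → K}

variable (H π Q val) in
/-- The properties of the abelian variety. -/
structure IsPaired : Prop where
  one_lt : 1 < Q
  frobenius : CK.IsFrobenius C π Q
  generated : IsGenerated H A
  anticomm : IsAnticommutative H A
  spanned : ∀ c : H.A A, H.Deg 1 c →
    c ∈ Submodule.span K {a : H.A A | H.Deg 1 a ∧ ∃ x, H.up π a = val x • a}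
  integral : ∀ x, IsIntegral ℚ (val x)
  tate : ∀ c : H.A A, H.Deg 2 c → H.up π c = (Q : K) • c → InSpan H (IsDivisorClass H) c
  pair : ExactPairK val (Q : K) 1

/-- **Existence of a good basis.** -/
theorem exists_good_basis (hS : CH.IsStandard H) (h : IsPaired H π Q val) :
    ∃ (n : ℕ) (b : Basis (Fin n) K (H.A A)) (α : Fin n → K),
      (∀ t, H.pull π (b t) = α t • b t) ∧ (∀ t, IsIntegral ℚ (α t)) ∧
      ∀ ρ : K, ExactPairK val (Q : K) ρ →
        ∀ t (c : ℤ), α t * ρ = (Q : K) ^ c → ∃ l : ℕ, α t = (Q : K) ^ l ∧ b t ∈ CH.NK H A l := by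
  have hfin := hS.finite A
  have hQ1 : Q ≠ 0 := by
    have := h.one_lt
    omega
  have hQ : (Q : K) ≠ 0 := by exact_mod_cast hQ1
  have hU : Submodule.span K {v : H.A A | v ∈ H.gr A 1 ∧ ∃ y, H.pull π v = val y • v} =
      H.gr A 1 :=
    le_antisymm (Submodule.span_le.2 fun v hv => hv.1) fun c hc => h.spanned c hc
  have hgen : Algebra.adjoin K (H.gr A 1 : Set (H.A A)) = ⊤ := by
    rw [eq_top_iff]
    intro a _
    exact h.generated _ (fun b hb => Algebra.subset_adjoin hb) a
  obtain ⟨n, b, α, hb⟩ := CH.exists_basis (H.pull π) val (H.gr A 1) hU hgen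
  refine ⟨n, b, α, fun t => (hb t).1, fun t => ?_, ?_⟩
  · obtain ⟨-, L, -, -, hL⟩ := hb t
    rw [hL]
    clear hL
    induction L with
    | nil => simpa using isIntegral_one
    | cons a L ih =>
      rw [List.map_cons, List.prod_cons]
      exact IsIntegral.mul (h.integral _) ih
  · intro ρ hρ t c hc
    obtain ⟨-, L, hL1, hL2, hL3⟩ := hb t
    have h1 := CH.list_graded (H.pull π) val (Q : K) ρ hQ hρ (CH.NK H A) CH.one_mem_NK
      (fun a ha l b hb => by
        rw [add_comm l 1]
        exact CH.mul_mem_NK ha hb)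
      (H.gr A 1 : Set (H.A A)) (fun a ha b hb => h.anticomm a b ha hb)
      (fun a ha b hb y y' h2 h3 h4 => by
        apply CH.mem_NK_one
        refine h.tate (a * b) (H.mul_mem ha hb) ?_
        change H.pull π (a * b) = _
        rw [map_mul, h2, h3, smul_mul_smul_comm, h4])
      L.length c 1 one_pos L rfl hL1 (by rw [pow_one, pow_one, ← hL3]; exact hc)
    obtain ⟨l, -, h2, h3⟩ := h1
    refine ⟨l, ?_, ?_⟩
    · rw [hL3, h2]
    · rw [hL2]
      exact h3

theorem isTate (hS : CH.IsStandard H) (h : IsPaired H π Q val) (e : C.A (A.prod A))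
    (he : IsIdempotent C e) : IsTate H π Q e := by
  obtain ⟨n, b, α, hb, -, hgood⟩ := exists_good_basis hS h
  have hQ1 : Q ≠ 0 := by
    have := h.one_lt
    omega
  have hQ : (Q : K) ≠ 0 := by exact_mod_cast hQ1
  have hfrob := isFrobenius_bridge h.frobenius
  have hact : ∀ x : C.A A, InKZero e (C.act e x) := by
    intro x
    have h1 : C.act (compose C e e) x = C.act e (C.act e x) := C.act_comp e e x
    rw [he] at h1
    exact h1.symm
  constructor
  · intro c a ha
    have h1 := NM.gen_mem b α hb ha
    have h2 : a ∈ Submodule.span K {b | ∃ x : C.A A, b = H.cl x} := by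
      refine (Submodule.span_le.2 ?_ : _ ≤ _) h1
      rintro _ ⟨t, ht, rfl⟩
      obtain ⟨l, -, hl⟩ := hgood 1 h.pair t c (by rw [mul_one]; exact ht)
      exact NM.NK_le l hl
    clear h1 ha
    induction h2 using Submodule.span_induction with
    | mem a ha =>
      obtain ⟨x, rfl⟩ := ha
      refine Submodule.subset_span ⟨C.act e x, hact x, ?_⟩
      exact (cl_act H e x).symm
    | zero =>
      rw [H.act_map_zero]
      exact Submodule.zero_mem _
    | add x y _ _ hx hy =>
      rw [act_map_add]
      exact Submodule.add_mem _ hx hy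
    | smul c x _ hx =>
      rw [act_map_smul]
      exact Submodule.smul_mem _ _ hx
  · intro x _ hx
    have hbt : ∀ t, H.tr A (H.cl x * b t) = 0 := by
      intro t
      by_cases ht : ∃ l : ℕ, b t ∈ CH.NK H A l
      · obtain ⟨l, hl⟩ := ht
        have h1 : ∀ v ∈ Submodule.span K {b | ∃ x : C.A A, b = H.cl x},
            H.tr A (H.cl x * v) = 0 := by
          intro v hv
          induction hv using Submodule.span_induction with
          | mem a ha =>
            obtain ⟨w, rfl⟩ := ha
            have h2 := hx w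
            change H.tr A (H.cl (x * w)) = 0 at h2
            rwa [map_mul] at h2
          | zero => rw [mul_zero, map_zero]
          | add a a' _ _ ha ha' => rw [mul_add, map_add, ha, ha', add_zero]
          | smul c a _ ha => rw [mul_smul_comm, map_smul, ha, smul_zero]
        exact h1 _ (NM.NK_le l hl)
      · obtain ⟨S, f, hf, hsum⟩ := exists_expansion (C := C) x
        rw [hsum, map_sum, Finset.sum_mul, map_sum]
        refine Finset.sum_eq_zero fun i _ => ?_
        have h1 : H.pull π (H.cl (f i)) = (Q : K) ^ i • H.cl (f i) := by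
          have h2 := frobenius_act h.frobenius i (f i) (hf i)
          rw [C.act_cograph] at h2
          rw [← H.cl_pull, h2, CH.cl_smul]
          push_cast
          rfl
        have h2 := CH.tr_frob hfrob (H.cl (f i) * b t)
        rw [map_mul, h1, hb, smul_mul_smul_comm, map_smul, smul_eq_mul] at h2
        have h3 : ((Q : K) ^ i * α t - (Q : K) ^ A.dim) * H.tr A (H.cl (f i) * b t) = 0 := by
          rw [sub_mul, h2, sub_self]
        rcases mul_eq_zero.1 h3 with h4 | h4
        · exfalso
          apply ht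
          obtain ⟨l, -, hl⟩ := hgood 1 h.pair t ((A.dim : ℤ) - i) (by
            rw [mul_one, zpow_sub₀ hQ, zpow_natCast, eq_div_iff (zpow_ne_zero _ hQ), mul_comm]
            exact sub_eq_zero.1 h4)
          exact ⟨l, hl⟩
        · exact h4
    apply H.nondeg
    intro y
    have h2 : y = ∑ t, b.repr y t • b t := (b.sum_repr y).symm
    rw [h2, Finset.mul_sum, map_sum]
    refine Finset.sum_eq_zero fun t _ => ?_
    rw [mul_smul_comm, map_smul, hbt, smul_zero]

/-- Eigenvalues that occur in `𝒜` are separated from those of `A`. -/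
theorem separated (hS : CH.IsStandard H) (h : IsPaired H π Q val) (e : C.A (A.prod A))
    {πY : Y ⟶ Y} {e' : C.A (Y.prod Y)}
    (hind : ∀ ρ : K, Occurs H πY e' ρ → ExactPairK val (Q : K) ρ) :
    AreSeparated H π e πY e' Q := by
  obtain ⟨n, b, α, hb, -, hgood⟩ := exists_good_basis hS h
  intro μ ρ c hμ hρ hc
  obtain ⟨a, ha, ha0⟩ := hμ
  have ha0' : a ≠ 0 := by
    rintro rfl
    apply ha0
    exact H.act_map_zero _
  have h1 := NM.gen_mem b α hb ha
  obtain ⟨t, ht⟩ : ∃ t, α t = μ := by
    by_contra hcon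
    push Not at hcon
    apply ha0'
    have h2 : {c : H.A A | ∃ t, α t = μ ∧ c = b t} = ∅ := by
      ext c
      constructor
      · rintro ⟨t, ht, -⟩
        exact (hcon t ht).elim
      · intro h
        exact h.elim
    rw [h2, Submodule.span_empty, Submodule.mem_bot] at h1
    exact h1
  obtain ⟨l, hl, -⟩ := hgood ρ (hind ρ hρ) t c (by rw [ht]; exact hc)
  exact ⟨l, by rw [← ht, hl, zpow_natCast]⟩

/-- The eigenvalues of Frobenius on the cohomology of `A` are algebraic. -/
theorem algebraic (hS : CH.IsStandard H) (h : IsPaired H π Q val) :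
    HasAlgebraicEigenvalues H π := by
  obtain ⟨n, b, α, hb, hα, -⟩ := exists_good_basis hS h
  intro μ a ha0 ha
  have h1 : IsGenEigen H π μ a := by
    refine ⟨1, ?_⟩
    change H.pull π a - μ • a = 0
    change H.pull π a = μ • a at ha
    rw [ha, sub_self]
  have h2 := NM.gen_mem b α hb h1
  by_contra hcon
  apply ha0
  have h3 : {c : H.A A | ∃ t, α t = μ ∧ c = b t} = ∅ := by
    ext c
    constructor
    · rintro ⟨t, ht, -⟩
      apply hcon
      rw [← ht]
      exact isAlgebraic_iff_isIntegral.2 (hα t)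
    · intro h
      exact h.elim
  rw [h3, Submodule.span_empty, Submodule.mem_bot] at h2
  exact h2

/-- **The general theorem.** -/
theorem main_paired [IsAlgClosed K] (hS : CK.IsStandard H) (h : IsPaired H π Q val)
    (hnil : ProductsVanish H A) (e : C.A (A.prod A)) (he : IsIdempotent C e) :
    ∃ (J : Type) (_ : Fintype J) (D : J → C.A A), IsBasisOf C e D ∧ IsNondegenerate H e ∧
      ∀ (Y : 𝒱.Obj) (πY : Y ⟶ Y) (e' : C.A (Y.prod Y)), IsIdempotent C e' →
        CK.IsFrobenius C (prodMap π πY) Q → HasAlgebraicEigenvalues H πY →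
        ProductsVanish H (A.prod Y) → (∀ ρ : K, Occurs H πY e' ρ → ExactPairK val (Q : K) ρ) →
        TensorKunneth H e e' D ∧
          (Nonempty J → (IsNondegenerate H (tensor C e e') ↔ IsNondegenerate H e')) := by
  have hS' := isStandard_bridge hS
  have h1 : IsTateMotive H π Q e := ⟨he, h.frobenius, algebraic hS' h, hnil, isTate hS' h e he⟩
  obtain ⟨J, hJ, D, hD, hnd, hK⟩ := NK.main hS h1
  refine ⟨J, hJ, D, hD, hnd, fun Y πY e' h2 h3 h4 h5 h6 => ?_⟩
  exact hK Y πY e' ⟨h2, h3, h4, h5, separated hS' h e h6⟩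

end Pool.Agent.T9h37.NP
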