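import Pool.Agent.T9h37.NP.Out
import Pool.Agent.W484.HS.Abs

/-!
# Products of Frobenius eigenvalues of abelian varieties with symmetric relations and independent numbers
-/

set_option autoImplicit false
set_option linter.unusedSectionVars false
set_option linter.unusedVariables false

namespace Pool.Agent.T9h37.NP

open NumberField Pool.Agent.H204R3.CM Pool.Agent.W547.KB Pool.Agent.W547.LD Pool.Agent.W547.HR
  Pool.Agent.W495.TA Module Pool.Agent.TH117.PO Pool.Agent.W976.TA Pool.Agent.W417.TA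
  Pool.Agent.TH117.BL Pool.Agent.W495.TC Pool.Agent.W495.TB Pool.Agent.TH117.F5 Pool.Agent.N202.QR
  Pool.Agent.W495.FM Pool.Agent.TH117.GN Pool.Agent.T9h37.PP Pool.Agent.W484.HS
open Pool.Agent.T9h37.CT (NoQuadratic)
open scoped TensorProduct

noncomputable section

variable {p : ℕ} [Fact p.Prime] {ν : PadicAlgCl p ≃+* ℂ}

section list

variable {W : Type} [Fintype W] [DecidableEq W] {M : Type*} [CommMonoid M]

theorem prod_count (f : W → M) (l : List W) : (l.map f).prod = ∏ w, f w ^ l.count w := by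
  induction l with
  | nil => simp
  | cons a l ih =>
    rw [List.map_cons, List.prod_cons, ih]
    have h1 : ∀ w, f w ^ (a :: l).count w = (if w = a then f w else 1) * f w ^ l.count w := by
      intro w
      rw [List.count_cons, pow_add, mul_comm]
      congr 1
      by_cases h : w = a
      · subst h
        simp
      · rw [if_neg h]
        have h2 : (a == w) = false := by
          rw [beq_eq_false_iff_ne]
          exact fun h' => h h'.symm
        rw [h2]
        simp
    rw [Finset.prod_congr rfl fun w _ => h1 w, Finset.prod_mul_distrib,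
      Finset.prod_ite_eq' Finset.univ a fun w => f w, if_pos (Finset.mem_univ _)]

theorem list_prod_pow {W M : Type*} [CommMonoid M] (f : W → M) (s : ℕ) (l : List W) :
    (l.map fun y => f y ^ s).prod = (l.map f).prod ^ s := by
  induction l with
  | nil => simp
  | cons y l ih => rw [List.map_cons, List.prod_cons, List.map_cons, List.prod_cons, mul_pow, ih]

end list

variable {K : Type} [Field K] [IsAlgClosed K] [CharZero K]

section field

variable {L : Type} [Field L] [NumberField L] [IsCMField L] [IsGalois ℚ L]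

theorem exists_restrictK (κ : L →+* K) (τ : K ≃+* K) :
    ∃ g : L ≃ₐ[ℚ] L, ∀ x, κ (g x) = τ (κ x) := by
  let _ : Algebra L K := κ.toAlgebra
  have : IsScalarTower ℚ L K := inferInstance
  let τ' : K ≃ₐ[ℚ] K := AlgEquiv.ofRingEquiv (f := τ) fun r => by
    rw [eq_ratCast, map_ratCast]
  exact ⟨τ'.restrictNormal L, fun x => AlgEquiv.restrictNormal_commutes τ' L x⟩

theorem factor_K {j : L →+* ℂ} (κ : L →+* K) {A : CMPair} (hA : BigA A j) (ψ : A.E →+* K) :
    ∃ φ : A.E →+* L, κ.comp φ = ψ := by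
  classical
  have hfin := finite_emb j A
  let _ : Fintype (A.E →+* L) := Fintype.ofFinite _
  have hcard : Fintype.card (A.E →+* L) = Fintype.card (A.E →+* K) := by
    rw [Pool.Agent.W495.TA.card_emb hA]
    exact (NumberField.Embeddings.card A.E K).symm
  have hinj : Function.Injective fun φ : A.E →+* L => κ.comp φ := by
    intro φ φ' h
    ext x
    exact κ.injective (RingHom.congr_fun h x)
  exact ((Fintype.bijective_iff_injective_and_card _).2 ⟨hinj, hcard⟩).2 ψ

end field

/-- **Products of eigenvalues.** -/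
theorem exactPair_of_primes {Z : RedAV p ν} (hprime : HasPrimeFactors Z) {s : ℕ} (hs : 0 < s)
    (ρ : K) (hρ : ρ = 1 ∨ IsAlgebraic ℚ ρ ∧ IsOutside Z ρ) :
    ExactPairK (fun y : (Σ i : Z.X.I, ((Z.X.factor i).E →+* K)) => (y.2 (Z.π y.1)) ^ s)
      (((p : K) ^ Z.a) ^ s) ρ := by
  classical
  have hsym := sym_of_primes hprime
  intro n c N hN hn ys hlen hrel hpw
  have hne : Nonempty (Z.X.prod (single (kp p))).I := ⟨Sum.inr ()⟩
  obtain ⟨L, _, _, _, _, j, hj⟩ := exists_cm (Z.X.prod (single (kp p)))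
  have hZ : Big Z.X j := fun i ψ => hj (Sum.inl i) ψ
  have hfin := Pool.Agent.W495.TB.finite_wt j hZ
  let _ : Fintype (Wt Z.X L) := Fintype.ofFinite _
  let κ : L →+* K := ((IsAlgClosed.lift : L →ₐ[ℚ] K) : L →+* K)
  choose φ hφ using fun (i : Z.X.I) (ψ : (Z.X.factor i).E →+* K) => factor_K κ (hZ i) ψ
  let g : (Σ i : Z.X.I, ((Z.X.factor i).E →+* K)) → Wt Z.X L := fun y => ⟨y.1, φ y.1 y.2⟩
  have hg : ∀ y (x : (Z.X.factor y.1).E), κ ((g y).2 x) = y.2 x := fun y x =>
    RingHom.congr_fun (hφ y.1 y.2) x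
  let e : Wt Z.X L → ℕ := fun w => (ys.map g).count w
  set α : L := ∏ w : Wt Z.X L, (w.2 (Z.π w.1)) ^ e w with hα
  have hα' : κ α = (ys.map fun y => y.2 (Z.π y.1)).prod := by
    have h1 := prod_count (fun w : Wt Z.X L => w.2 (Z.π w.1)) (ys.map g)
    rw [hα, ← h1, List.map_map, _root_.map_list_prod, List.map_map]
    congr 1
    exact List.map_congr_left fun y _ => hg y _
  have hP : (ys.map fun y => (y.2 (Z.π y.1)) ^ s).prod = κ (α ^ s) := by
    rw [map_pow, hα']
    exact list_prod_pow _ _ _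
  have hp0 : (p : K) ≠ 0 := by exact_mod_cast (Fact.out : p.Prime).ne_zero
  set Q : K := ((p : K) ^ Z.a) ^ s with hQ
  have hQ0 : Q ≠ 0 := pow_ne_zero _ (pow_ne_zero _ hp0)
  rw [hP] at hrel
  have hρ0 : ρ ≠ 0 := by
    rintro rfl
    rw [mul_zero, zero_pow hN.ne'] at hrel
    exact pow_ne_zero _ (zpow_ne_zero _ hQ0) hrel.symm
  let F : (L ≃ₐ[ℚ] L) → ℤ := fun σ => ∑ w : Wt Z.X L, (e w : ℤ) * tw p ν j Z.X w σ
  -- the invariance
  have hkey : ∀ y ∈ ys, ∑ σ, tw p ν j Z.X (g y) σ * F σ = 0 := by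
    intro y _
    obtain ⟨h, M, hM, h2, htw⟩ : ∃ (h : L ≃ₐ[ℚ] L) (M : ℕ), 0 < M ∧
        (h α) ^ (s * (N * M)) = α ^ (s * (N * M)) ∧
        ∀ σ, tw p ν j Z.X (g y) (σ * h) = -tw p ν j Z.X (g y) σ := by
      rcases hρ with hρ1 | ⟨hρa, m, hm, hρm⟩
      · refine ⟨cc L, 1, one_pos, ?_, fun σ => ?_⟩
        · rw [mul_one]
          rw [hρ1, mul_one] at hrel
          have h5 : α ^ (s * N) = ((((p : L) ^ Z.a) ^ s) ^ c) ^ N := by
            apply κ.injective
            have e1 : κ (((((p : L) ^ Z.a) ^ s) ^ c) ^ N) = (Q ^ c) ^ N := by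
              rw [map_pow κ, map_zpow₀ κ, map_pow κ, map_pow κ, map_natCast]
            have e2 : κ (α ^ (s * N)) = (κ (α ^ s)) ^ N := by
              rw [pow_mul, map_pow κ]
            rw [e2, hrel, e1]
          have h6 : (cc L) (α ^ (s * N)) = α ^ (s * N) := by
            rw [h5, map_pow, map_zpow₀, map_pow, map_pow, map_natCast]
          rw [← map_pow (cc L), h6]
        · have h7 : sw (cc L) (g y) = cw Z (g y) := rfl
          rw [← tw_sw, h7, tw_cw, Pi.neg_apply]
      · have hp0' : (p : L) ≠ 0 := by exact_mod_cast (Fact.out : p.Prime).ne_zero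
        have hQL : ((p : L) ^ Z.a) ^ s ≠ 0 := pow_ne_zero _ (pow_ne_zero _ hp0')
        have hα0 : α ≠ 0 := by
          intro h0
          rw [h0, zero_pow hs.ne', map_zero, zero_mul, zero_pow hN.ne'] at hrel
          exact pow_ne_zero _ (zpow_ne_zero _ hQ0) hrel.symm
        let y' : L := ((((p : L) ^ Z.a) ^ s) ^ c) ^ N / α ^ (s * N)
        have hy' : κ y' = ρ ^ N := by
          have e1 : κ (((((p : L) ^ Z.a) ^ s) ^ c) ^ N) = (Q ^ c) ^ N := by
            rw [map_pow κ, map_zpow₀ κ, map_pow κ, map_pow κ, map_natCast]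
          have e2 : κ (α ^ (s * N)) = (κ (α ^ s)) ^ N := by
            rw [pow_mul, map_pow κ]
          have e3 : (κ (α ^ s)) ^ N ≠ 0 := by
            rw [← e2]
            exact (map_ne_zero κ).2 (pow_ne_zero _ hα0)
          rw [map_div₀, e1, e2, ← hrel, mul_pow, mul_div_cancel_left₀ _ e3]
        obtain ⟨τ, h3, h4⟩ := exists_of_outside hZ κ (g y) (hprime.field (g y).1) hρa y' hy'
          (hρm (g y).1)
        refine ⟨τ, m, hm, ?_, fun σ => ?_⟩
        · have h5 : α ^ (s * (N * m)) * y' ^ m = (((((p : L) ^ Z.a) ^ s) ^ c) ^ N) ^ m := by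
            rw [← mul_assoc, pow_mul α (s * N) m, ← mul_pow]
            congr 1
            exact mul_div_cancel₀ _ (pow_ne_zero _ hα0)
          have hy'0 : y' ^ m ≠ 0 := pow_ne_zero _ (div_ne_zero
            (pow_ne_zero _ (zpow_ne_zero _ hQL)) (pow_ne_zero _ hα0))
          have h6 : τ ((((((p : L) ^ Z.a) ^ s) ^ c) ^ N) ^ m) =
              (((((p : L) ^ Z.a) ^ s) ^ c) ^ N) ^ m := by
            rw [map_pow, map_pow, map_zpow₀, map_pow, map_pow, map_natCast]
          have h7 : τ (α ^ (s * (N * m))) * y' ^ m = α ^ (s * (N * m)) * y' ^ m := by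
            rw [h5, ← h6, ← h5, map_mul, h3]
          have h8 := mul_right_cancel₀ hy'0 h7
          rwa [map_pow] at h8
        · have h9 : sw τ (g y) = cw Z (g y) := Sigma.ext rfl (heq_of_eq h4)
          rw [← tw_sw, h9, tw_cw, Pi.neg_apply]
    have hpos : s * (N * M) ≠ 0 := (Nat.mul_pos hs (Nat.mul_pos hN hM)).ne'
    have hF : ∀ σ, F (σ * h) = F σ := by
      intro σ
      have e1 := norm_prod_pow hZ e (σ * h)
      have e2 := norm_prod_pow hZ e σ
      rw [← hα] at e1 e2
      have e3 : ‖ν.symm (j ((σ * h) α))‖ = ‖ν.symm (j (σ α))‖ := by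
        have e4 : ‖ν.symm (j ((σ * h) α))‖ ^ (s * (N * M)) =
            ‖ν.symm (j (σ α))‖ ^ (s * (N * M)) := by
          rw [← norm_pow, ← norm_pow, ← map_pow, ← map_pow, ← map_pow, ← map_pow, ← map_pow,
            ← map_pow]
          change ‖ν.symm (j (σ (h (α ^ (s * (N * M))))))‖ = _
          rw [map_pow, h2]
        exact (pow_left_inj₀ (norm_nonneg _) (norm_nonneg _) hpos).1 e4
      rw [e3, e2] at e1
      have e4 := zpow_right_injective₀ norm_p_pos
        (Pool.Agent.W495.TA.norm_p_lt (p := p)).ne e1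
      have ha : (Z.a : ℤ) ≠ 0 := by exact_mod_cast Z.pos.ne'
      have e5 := mul_left_cancel₀ ha e4
      have e6 := add_left_cancel e5
      exact e6.symm
    have e1 : ∑ σ, tw p ν j Z.X (g y) σ * F σ =
        ∑ σ, tw p ν j Z.X (g y) (σ * h) * F (σ * h) :=
      (Equiv.sum_comp (Equiv.mulRight h) fun σ => tw p ν j Z.X (g y) σ * F σ).symm
    have e2 : ∑ σ, tw p ν j Z.X (g y) (σ * h) * F (σ * h) =
        -∑ σ, tw p ν j Z.X (g y) σ * F σ := by
      rw [← Finset.sum_neg_distrib]
      exact Finset.sum_congr rfl fun σ _ => by rw [htw, hF, neg_mul]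
    omega
  have hFF : ∑ σ, F σ * F σ = 0 := by
    have h1 : ∀ σ, F σ * F σ = ∑ w : Wt Z.X L, (e w : ℤ) * (tw p ν j Z.X w σ * F σ) := by
      intro σ
      change (∑ w : Wt Z.X L, (e w : ℤ) * tw p ν j Z.X w σ) * F σ = _
      rw [Finset.sum_mul]
      exact Finset.sum_congr rfl fun w _ => mul_assoc _ _ _
    rw [Finset.sum_congr rfl fun σ _ => h1 σ, Finset.sum_comm]
    refine Finset.sum_eq_zero fun w _ => ?_
    rw [← Finset.mul_sum]
    by_cases hw : w ∈ ys.map g
    · obtain ⟨y, hy, rfl⟩ := List.mem_map.1 hw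
      rw [hkey y hy, mul_zero]
    · have h2 : e w = 0 := List.count_eq_zero.2 hw
      rw [h2, Nat.cast_zero, zero_mul]
  have hF0 : ∀ σ, F σ = 0 := by
    intro σ
    have h1 := (Finset.sum_eq_zero_iff_of_nonneg fun σ _ => mul_self_nonneg _).1 hFF σ
      (Finset.mem_univ σ)
    exact mul_self_eq_zero.1 h1
  -- the relation
  have hbij := toEmb_bijective (j := j) hZ
  let E : Wt Z.X L ≃ Emb Z := Equiv.ofBijective _ hbij
  let e' : Emb Z → ℕ := fun u => e (E.symm u)
  have he' : ∀ w, e' (toEmb j Z w) = e w := fun w => congrArg e (E.symm_apply_apply w)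
  have hR : IsRel Z e' := by
    rw [isRel_iff hZ]
    intro σ
    rw [← hF0 σ]
    exact Finset.sum_congr rfl fun w _ => by rw [he']
  have hsymm : ∀ w, e (cw Z w) = e w := by
    intro w
    have h1 := hsym e' hR (toEmb j Z w)
    unfold oddE at h1
    rw [← toEmb_cw, he', he'] at h1
    omega
  obtain ⟨y1, hy1⟩ : ∃ y, y ∈ ys := by
    cases ys with
    | nil =>
      simp only [List.length_nil] at hlen
      omega
    | cons y l => exact ⟨y, List.mem_cons_self⟩
  have h1 : 0 < e (g y1) := List.count_pos_iff.2 (List.mem_map_of_mem hy1)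
  rw [← hsymm] at h1
  obtain ⟨y2, hy2, h2⟩ := List.mem_map.1 (List.count_pos_iff.1 h1)
  have hne' : y1 ≠ y2 := by
    rintro rfl
    have h3 := congrArg (toEmb j Z) h2
    rw [toEmb_cw] at h3
    exact conjE_ne _ h3.symm
  have hval : (y1.2 (Z.π y1.1)) ^ s * (y2.2 (Z.π y2.1)) ^ s = Q := by
    have h3 : y2.2 (Z.π y2.1) = κ ((cw Z (g y1)).2 (Z.π (cw Z (g y1)).1)) := by
      rw [← h2]
      exact (hg y2 _).symm
    have h4 : (g y1).2 (Z.π (g y1).1) * (cw Z (g y1)).2 (Z.π (cw Z (g y1)).1) =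
        (p : L) ^ Z.a := by
      apply j.injective
      rw [map_mul, map_pow, map_natCast]
      have h5 := eig_conj (toEmb j Z (g y1))
      rw [← toEmb_cw] at h5
      exact h5
    rw [← mul_pow, h3, ← hg y1]
    change (κ ((g y1).2 (Z.π (g y1).1)) * κ ((cw Z (g y1)).2 (Z.π (cw Z (g y1)).1))) ^ s = Q
    rw [← map_mul, h4, map_pow, map_natCast]
  have hS : Std.Symm fun y y' : (Σ i : Z.X.I, ((Z.X.factor i).E →+* K)) =>
      (y.2 (Z.π y.1)) ^ s * (y'.2 (Z.π y'.1)) ^ s ≠ Q :=
    ⟨fun a b hab h => hab (by rw [mul_comm]; exact h)⟩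
  exact hpw.forall hy1 hy2 hne' hval

end

end Pool.Agent.T9h37.NP
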