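import Pool.Agent.T9h37.NP.Gen
import Pool.Agent.T9h37.NP.Pair
import Pool.Agent.T9h37.NP.Defs

/-!
# Tensor products with abelian varieties whose factors have dimension one or an odd prime
-/

set_option autoImplicit false
set_option linter.unusedSectionVars false

open CategoryTheory AlgebraicGeometry

universe u v

namespace Pool.Agent.T9h37.NP

open Module Polynomial Pool.Agent.H914 Pool.Agent.H914.VarClass Pool.Agent.H914.VarClass.Obj
  Pool.Agent.W492.BB Pool.Agent.W550.Corr Pool.Agent.W484.TB Pool.Agent.W484.HS Pool.Agent.W484.CK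
  Pool.Agent.W484 Pool.Agent.T9h37.NK
open Pool.Agent.W495.TA (RedAV)

variable {k : Type u} [Field k] {𝒱 : VarClass k} {C : TheoryData.{u, v, 0} 𝒱 ℚ} {K : Type}
  [Field K] [CharZero K] {H : WeilTheoryData.{u, v, 0} C K} [hC : IsChow C] [hH : IsWeil H]
  {A Y : 𝒱.Obj} {π : A ⟶ A} {p : ℕ} [Fact p.Prime] {ν : PadicAlgCl p ≃+* ℂ} {Z : RedAV p ν}

theorem occurs_algebraic {πY : Y ⟶ Y} {e' : C.A (Y.prod Y)} (hY : HasAlgebraicEigenvalues H πY)
    {ρ : K} (hρ : Occurs H πY e' ρ) : IsAlgebraic ℚ ρ := by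
  by_cases hρ0 : ρ = 0
  · rw [hρ0]
    exact isAlgebraic_zero
  obtain ⟨a, ⟨n, hn⟩, ha⟩ := hρ
  have ha0 : a ≠ 0 := by
    rintro rfl
    apply ha
    exact H.act_map_zero _
  rw [shift_eq] at hn
  obtain ⟨-, v, hv0, hv⟩ := CH.exists_eigen (CH.frob H πY) 1 ρ hρ0 n a ha0 (by
    rw [one_smul]
    exact hn)
  rw [div_one] at hv
  exact hY ρ v hv0 hv

variable [IsAlgClosed K]

theorem isPaired (hp : HasPrimeFactors Z) {s : ℕ} (h : IsProductOfFactors H Z s π) :
    IsPaired H π ((p ^ Z.a) ^ s)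
      (fun y : (Σ i : Z.X.I, ((Z.X.factor i).E →+* K)) => (y.2 (Z.π y.1)) ^ s) := by
  have hp1 : 1 < p := (Fact.out : p.Prime).one_lt
  refine ⟨?_, h.frobenius, h.generated, h.anticomm, fun c hc => ?_, fun y => ?_, h.tate, ?_⟩
  · exact Nat.one_lt_pow h.pos.ne' (Nat.one_lt_pow Z.pos.ne' hp1)
  · refine Submodule.span_mono ?_ (h.spanned c hc)
    rintro a ⟨ha, i, ψ, hψ⟩
    exact ⟨ha, ⟨i, ψ⟩, hψ⟩
  · have h1 : IsIntegral ℚ (Z.π y.1) := Algebra.IsIntegral.isIntegral _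
    have h2 : IsIntegral ℚ (RingHom.toRatAlgHom y.2 (Z.π y.1)) := h1.map _
    exact h2.pow s
  · have h1 := exactPair_of_primes (K := K) hp h.pos 1 (Or.inl rfl)
    push_cast
    exact h1

/-- **The theorem.** -/
theorem main (hS : CK.IsStandard H) (hp : HasPrimeFactors Z) {s : ℕ}
    (h : IsProductOfFactors H Z s π) (hnil : ProductsVanish H A) (e : C.A (A.prod A))
    (he : IsIdempotent C e) : KunnethForOutside H Z π ((p ^ Z.a) ^ s) e := by
  obtain ⟨J, hJ, D, hD, hnd, hK⟩ := main_paired hS (isPaired hp h) hnil e he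
  refine ⟨J, hJ, D, hD, hnd, fun Y πY e' h' => ?_⟩
  refine hK Y πY e' h'.idempotent h'.frobenius h'.algebraic h'.nilpotent fun ρ hρ => ?_
  have h1 := exactPair_of_primes (K := K) hp h.pos ρ
    (Or.inr ⟨occurs_algebraic h'.algebraic hρ, h'.outside ρ hρ⟩)
  push_cast
  exact h1

end Pool.Agent.T9h37.NP
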