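import Pool.Agent.N202.QR.PrimeRel
import Pool.Agent.T9h37.CT.Fd

/-!
# The orbits of normal subgroups on the embeddings of a CM field
-/

set_option autoImplicit false
set_option linter.unusedSectionVars false
set_option linter.unusedVariables false

namespace Pool.Agent.T9h37.NP

open NumberField Pool.Agent.H204R3.CM Pool.Agent.W547.KB Pool.Agent.W547.LD Pool.Agent.W495.TA Module
  Pool.Agent.N202.QR

noncomputable section

/-- A half system of a `G`-set defined by an orbit of a normal subgroup. -/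
theorem prime_orbits' {G X : Type} [Group G] [Finite G] [Fintype X] [MulAction G X] {c : G}
    (hset : Setting G X c) {g : ℕ} (hg : g.Prime) (hg2 : g ≠ 2) (hcard : Fintype.card X = 2 * g)
    (N : Subgroup G) [hNn : N.Normal] (w : X) (hw : ∀ n ∈ N, n • w ≠ c • w) {n₁ : G}
    (hn₁ : n₁ ∈ N) (hmove : n₁ • w ≠ w) :
    ∃ a : X → ℤ, a w = 1 ∧ (∀ x, a (c • x) = -a x) ∧
      ∀ σ : G, (∀ x, a (σ • x) = a x) ∨ ∀ x, a (σ • x) = -a x := by
  classical
  let O : Set X := {x | ∃ n ∈ N, n • w = x}
  have hwO : w ∈ O := ⟨1, N.one_mem, one_smul _ _⟩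
  have hcc : ∀ x : X, c • c • x = x := fun x => by rw [← mul_smul, hset.sq, one_smul]
  have hcn : ∀ (n : G) (x : X), c • n • x = n • c • x := fun n x => by
    rw [← mul_smul, hset.comm, mul_smul]
  have hOc : ∀ x ∈ O, c • x ∉ O := by
    rintro x ⟨n, hn, rfl⟩ ⟨n', hn', h⟩
    refine hw (n⁻¹ * n') (N.mul_mem (N.inv_mem hn) hn') ?_
    rw [mul_smul, h, hcn, ← mul_smul, inv_mul_cancel, one_smul]
  -- the orbit is large
  obtain ⟨τ, hτg, hτ⟩ := exists_cyc hset hg hg2 hcard
  have hfix : ∀ (i : ℕ) (x : X), τ ^ i • x = x → g ∣ i := by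
    intro i x h
    by_contra hi
    have hcop : Nat.Coprime i g := Nat.Coprime.symm ((Nat.Prime.coprime_iff_not_dvd hg).2 hi)
    obtain ⟨k, -, hk⟩ := Nat.exists_mul_mod_eq_one_of_coprime hcop hg.one_lt
    have h1 : ∀ k : ℕ, τ ^ (i * k) • x = x := by
      intro k
      induction k with
      | zero => simp
      | succ k ih => rw [mul_add, mul_one, pow_add, mul_smul, h, ih]
    have h2 : τ ^ (i * k) • x = τ ^ 1 • x := by
      refine pow_smul_eq hτg ?_ x
      rw [Nat.ModEq, hk, Nat.mod_eq_of_lt hg.one_lt]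
    rw [h1, pow_one] at h2
    exact hτ x h2.symm
  -- normality
  have hconj : ∀ (s : G) (x : X), x ∈ O → ∃ n ∈ N, s • x = n • s • w := by
    rintro s x ⟨n, hn, rfl⟩
    refine ⟨s * n * s⁻¹, hNn.conj_mem n hn s, ?_⟩
    rw [← mul_smul, ← mul_smul, inv_mul_cancel_right]
  have hmulO : ∀ (s : G), s • w ∈ O → ∀ x ∈ O, s • x ∈ O := by
    intro s hs x hx
    obtain ⟨n, hn, h⟩ := hconj s x hx
    obtain ⟨n', hn', h'⟩ := hs
    exact ⟨n * n', N.mul_mem hn hn', by rw [mul_smul, h', h]⟩
  obtain ⟨m, hm, hmO⟩ : ∃ m : ℕ, ¬ g ∣ m ∧ τ ^ m • w ∈ O := by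
    obtain ⟨f, hf, hf1, hf2⟩ := orbit_equiv hset hg hg2 hcard hτg hτ w
    obtain ⟨⟨k, b⟩, hk⟩ := hf.2 (n₁ • w)
    have hk' : 0 < (k : ℕ) := by
      rcases Nat.eq_zero_or_pos (k : ℕ) with h0 | h0
      · exfalso
        cases b with
        | true =>
          rw [hf1, h0, pow_zero, one_smul] at hk
          exact hmove hk.symm
        | false =>
          rw [hf2, h0, pow_zero, one_smul] at hk
          exact hw n₁ hn₁ hk.symm
      · exact h0
    have hmem : n₁ • w ∈ O := ⟨n₁, hn₁, rfl⟩
    refine ⟨2 * k, ?_, ?_⟩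
    · intro h
      rcases (hg.dvd_mul.1 h) with h1 | h1
      · have := Nat.le_of_dvd (by norm_num) h1
        have := hg.two_le
        omega
      · have := Nat.le_of_dvd hk' h1
        have := k.2
        omega
    · cases b with
      | true =>
        have h1 : τ ^ (k : ℕ) • w ∈ O := by rw [← hf1, hk]; exact hmem
        rw [two_mul, pow_add, mul_smul]
        exact hmulO _ h1 _ h1
      | false =>
        have h1 : (c * τ ^ (k : ℕ)) • w ∈ O := by rw [mul_smul, ← hf2, hk]; exact hmem
        have h2 := hmulO _ h1 _ h1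
        have h3 : (c * τ ^ (k : ℕ)) • (c * τ ^ (k : ℕ)) • w = τ ^ (2 * (k : ℕ)) • w := by
          rw [mul_smul, mul_smul c, ← hcn, hcc, two_mul, pow_add, mul_smul]
        rwa [h3] at h2
  have hinj : Function.Injective fun k : Fin g => τ ^ (m * (k : ℕ)) • w := by
    have key : ∀ k k' : Fin g, (k : ℕ) ≤ k' → τ ^ (m * (k : ℕ)) • w = τ ^ (m * (k' : ℕ)) • w →
        k = k' := by
      intro k k' hkk h
      have h1 : τ ^ (m * ((k' : ℕ) - k)) • w = w := by
        have h2 : m * (k' : ℕ) = m * k + m * ((k' : ℕ) - k) := by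
          rw [← mul_add, Nat.add_sub_cancel' hkk]
        rw [h2, pow_add, mul_smul] at h
        exact (smul_left_cancel _ h).symm
      have h2 := hfix _ _ h1
      have h3 : g ∣ (k' : ℕ) - k := (hg.dvd_mul.1 h2).resolve_left hm
      have h4 : (k' : ℕ) - k = 0 := Nat.eq_zero_of_dvd_of_lt h3 (by omega)
      exact Fin.ext (by omega)
    intro k k' h
    rcases le_total (k : ℕ) k' with h1 | h1
    · exact key k k' h1 h
    · exact (key k' k h1 h.symm).symm
  have hmemO' : ∀ k : ℕ, τ ^ (m * k) • w ∈ O := by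
    intro k
    induction k with
    | zero =>
      rw [mul_zero, pow_zero, one_smul]
      exact hwO
    | succ k ih =>
      rw [mul_add, mul_one, add_comm, pow_add, mul_smul]
      exact hmulO _ hmO _ ih
  have hmemO : ∀ k : Fin g, τ ^ (m * (k : ℕ)) • w ∈ O := fun k => hmemO' k
  have hcardO : g ≤ (Finset.univ.filter (· ∈ O)).card := by
    have h1 := Finset.card_le_card_of_injOn (s := (Finset.univ : Finset (Fin g)))
      (t := Finset.univ.filter (· ∈ O)) (fun k : Fin g => τ ^ (m * (k : ℕ)) • w)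
      (fun k _ => by
        simp only [Finset.coe_filter, Finset.mem_univ, true_and, Set.mem_setOf_eq]
        exact hmemO k) (hinj.injOn)
    rwa [Finset.card_univ, Fintype.card_fin] at h1
  have hOc' : ∀ x, x ∉ O → c • x ∈ O := by
    intro x hx
    by_contra hcx
    -- three disjoint sets
    have hdisj : Disjoint (Finset.univ.filter (· ∈ O)) (Finset.univ.filter fun y => c • y ∈ O) := by
      rw [Finset.disjoint_left]
      intro y hy hy'
      simp only [Finset.mem_filter, Finset.mem_univ, true_and] at hy hy'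
      exact hOc y hy hy'
    have hcard2 : (Finset.univ.filter fun y => c • y ∈ O).card =
        (Finset.univ.filter (· ∈ O)).card := by
      refine Finset.card_bij (fun y _ => c • y) (fun y hy => ?_) (fun y _ y' _ h => ?_)
        fun y hy => ?_
      · simpa using hy
      · exact smul_left_cancel c h
      · refine ⟨c • y, ?_, hcc y⟩
        simp only [Finset.mem_filter, Finset.mem_univ, true_and] at hy ⊢
        rw [hcc]
        exact hy
    have hlt : (Finset.univ.filter (· ∈ O) ∪ Finset.univ.filter fun y => c • y ∈ O) ⊂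
        (Finset.univ : Finset X) := by
      rw [Finset.ssubset_univ_iff]
      intro h
      have h1 : x ∈ (Finset.univ : Finset X) := Finset.mem_univ x
      rw [← h] at h1
      simp only [Finset.mem_union, Finset.mem_filter, Finset.mem_univ, true_and] at h1
      rcases h1 with h1 | h1
      · exact hx h1
      · exact hcx h1
    have h2 := Finset.card_lt_card hlt
    rw [Finset.card_union_of_disjoint hdisj, hcard2, Finset.card_univ, hcard] at h2
    omega
  let a : X → ℤ := fun x => if x ∈ O then 1 else -1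
  have ha1 : ∀ x ∈ O, a x = 1 := fun x hx => if_pos hx
  have ha2 : ∀ x, x ∉ O → a x = -1 := fun x hx => if_neg hx
  have hconjO : ∀ (σ : G) (x : X), x ∈ O → ∃ n ∈ N, σ • x = n • σ • w := by
    rintro σ x ⟨n, hn, rfl⟩
    refine ⟨σ * n * σ⁻¹, hNn.conj_mem n hn σ, ?_⟩
    rw [← mul_smul, ← mul_smul, inv_mul_cancel_right]
  refine ⟨a, ha1 w hwO, fun x => ?_, fun σ => ?_⟩
  · by_cases hx : x ∈ O
    · rw [ha1 x hx, ha2 _ (hOc x hx)]
    · rw [ha2 x hx, ha1 _ (hOc' x hx)]
      norm_num
  · have hmemN : ∀ (n : G) (x : X), n ∈ N → x ∈ O → n • x ∈ O := by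
      rintro n x hn ⟨n', hn', rfl⟩
      exact ⟨n * n', N.mul_mem hn hn', mul_smul _ _ _⟩
    by_cases hσ : σ • w ∈ O
    · left
      have h1 : ∀ x ∈ O, σ • x ∈ O := by
        intro x hx
        obtain ⟨n, hn, h⟩ := hconjO σ x hx
        rw [h]
        exact hmemN n _ hn hσ
      intro x
      by_cases hx : x ∈ O
      · rw [ha1 x hx, ha1 _ (h1 x hx)]
      · rw [ha2 x hx, ha2]
        intro h
        have h2 := hOc _ h
        rw [hcn] at h2
        exact h2 (h1 _ (hOc' x hx))
    · right
      have hσ' := hOc' _ hσ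
      have h1 : ∀ x ∈ O, σ • x ∉ O := by
        intro x hx h
        obtain ⟨n, hn, h2⟩ := hconjO σ x hx
        refine hOc _ h ?_
        rw [h2, hcn]
        exact hmemN n _ hn hσ'
      intro x
      by_cases hx : x ∈ O
      · rw [ha1 x hx, ha2 _ (h1 x hx)]
      · rw [ha2 x hx, ha1]
        · norm_num
        · have h2 := h1 _ (hOc' x hx)
          rw [← hcn] at h2
          have h3 := hOc' _ h2
          rwa [hcc] at h3

end

end Pool.Agent.T9h37.NP
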