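import Pool.Agent.T9h37.PP.Rel
import Pool.Agent.T9h37.BI.Main
import Pool.Agent.T9h37.CT.Fd
import Pool.Agent.T9h37.NP.Defs

/-!
# Relations between the Frobenius eigenvalues of abelian varieties with factors of odd prime dimension
-/

set_option autoImplicit false
set_option linter.unusedSectionVars false
set_option linter.unusedVariables false

namespace Pool.Agent.T9h37.NP

open NumberField Pool.Agent.H204R3.CM Pool.Agent.W547.KB Pool.Agent.W547.LD Pool.Agent.W547.HR
  Pool.Agent.W495.TA Module Pool.Agent.TH117.PO Pool.Agent.W976.TA Pool.Agent.W417.TA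
  Pool.Agent.TH117.BL Pool.Agent.W495.TC Pool.Agent.W495.TB Pool.Agent.TH117.F5 Pool.Agent.N202.QR
  Pool.Agent.W495.FM Pool.Agent.TH117.GN Pool.Agent.T9h37.PP
open Pool.Agent.T9h37.BI (bil self_pos isRel_on block_rel Apart IsSS)
open Pool.Agent.T9h37.CT (NoQuadratic exists_quad)
open scoped TensorProduct

noncomputable section

variable {L : Type} [Field L] [NumberField L] [IsCMField L] [IsGalois ℚ L]
variable {p : ℕ} [Fact p.Prime] {ν : PadicAlgCl p ≃+* ℂ} {j : L →+* ℂ} {Z : RedAV p ν}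

/-- The relations between the Frobenius eigenvalues are symmetric: the exponents of an eigenvalue and of
its complex conjugate are equal. -/
def SymRel (Z : RedAV p ν) : Prop := ∀ e : Emb Z → ℕ, IsRel Z e → ∀ w, oddE e w = 0

/-- The function of a weight of a factor which is not supersingular is not zero. -/
theorem nn_ne_zero (hZ : Big Z.X j) (i : Z.X.I) (hss : ¬ IsSS p Z.a (Z.π i))
    (φ : (Z.X.factor i).E →+* L) : ∃ σ, nn p ν j (Z.X.factor i) φ σ ≠ 0 := by
  classical
  by_contra hcon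
  push Not at hcon
  have hfin := Pool.Agent.W495.TB.finite_wt j hZ
  let _ : Fintype (Wt Z.X L) := Fintype.ofFinite _
  let w0 : Emb Z := toEmb j Z ⟨i, φ⟩
  let e : Emb Z → ℕ := fun w => if w = w0 then 1 else 0
  have hrel : IsRel Z e := by
    rw [isRel_iff hZ]
    intro σ
    refine Finset.sum_eq_zero fun w _ => ?_
    by_cases hw : toEmb j Z w = w0
    · have h1 : w = ⟨i, φ⟩ := (toEmb_bijective (j := j) hZ).1 hw
      rw [h1]
      have h2 : tw p ν j Z.X ⟨i, φ⟩ σ = 0 := hcon σ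
      rw [h2, mul_zero]
    · have h1 : e (toEmb j Z w) = 0 := if_neg hw
      rw [h1, Nat.cast_zero, zero_mul]
  obtain ⟨s, hs, hrel⟩ := hrel
  have h1 : ∏ w, eig Z w ^ e w = eig Z w0 := by
    rw [Finset.prod_eq_single w0]
    · have : e w0 = 1 := if_pos rfl
      rw [this, pow_one]
    · intro w _ hw
      have : e w = 0 := if_neg hw
      rw [this, pow_zero]
    · intro h
      exact absurd (Finset.mem_univ _) h
  have h2 : ∑ w, e w = 1 := by
    rw [Finset.sum_ite_eq' Finset.univ w0 fun _ => 1, if_pos (Finset.mem_univ _)]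
  rw [h1, h2, mul_one] at hrel
  apply hss
  refine ⟨s, hs, ?_⟩
  apply (j.comp φ).injective
  rw [map_pow, map_pow, map_pow, map_natCast]
  exact hrel

/-- **Relations on a factor of odd prime dimension whose CM field contains no imaginary quadratic
field.** -/
theorem prime_sym (hZ : Big Z.X j) (i : Z.X.I) {ℓ : ℕ} (hℓ : ℓ.Prime) (hℓ2 : ℓ ≠ 2)
    (hdeg : finrank ℚ (Z.X.factor i).E = 2 * ℓ) (hNQ : NoQuadratic (Z.X.factor i).E)
    (hss : ¬ IsSS p Z.a (Z.π i)) (e : Emb Z → ℕ) (he : IsRel Z e)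
    (hs : ∀ w, e w ≠ 0 → w.1 = i) : ∀ w, oddE e w = 0 := by
  classical
  let A := Z.X.factor i
  let X := A.E →+* L
  have hfin' := finite_emb j A
  let _ : Fintype (A.E →+* L) := Fintype.ofFinite _
  have hset := setting j A (L := L)
  have hcard : Fintype.card X = 2 * ℓ := (Pool.Agent.W495.TA.card_emb (hZ i)).trans hdeg
  have hTs : ∀ (σ : L ≃ₐ[ℚ] L) (φ : X) h, nn p ν j A (σ • φ) h = nn p ν j A φ (h * σ) :=
    fun σ φ h => congrFun (nn_smul j A φ σ) h
  have hTo : ∀ (φ : X) h, nn p ν j A (cc L • φ) h = -nn p ν j A φ h := fun φ h =>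
    congrFun (nn_cc A φ) h
  have hrel := (isRel_on hZ i e hs).1 he
  let E : X → Emb Z := fun φ => toEmb j Z ⟨i, φ⟩
  have hEc : ∀ φ, conjE (E φ) = E (cc L • φ) := fun φ =>
    (toEmb_cw (j := j) (⟨i, φ⟩ : Wt Z.X L)).symm
  have hE : ∀ w : Emb Z, w.1 = i → ∃ φ, E φ = w := by
    rintro ⟨k, ψ⟩ h
    obtain rfl : k = i := h
    obtain ⟨φ, rfl⟩ := hZ k ψ
    exact ⟨φ, rfl⟩
  rcases prime_cases hset hℓ hℓ2 hcard (nn p ν j A) hTs hTo with hinj | ⟨t, ε, hε, ht⟩
  swap
  · exfalso
    obtain ⟨w0⟩ : Nonempty X := by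
      rw [← Fintype.card_pos_iff, hcard]
      have := hℓ.pos
      omega
    obtain ⟨h0, hh0⟩ := nn_ne_zero hZ i hss w0
    have ht0 : t h0 ≠ 0 := by
      intro h
      apply hh0
      rw [ht, h, mul_zero]
    have hε0 : ∀ x, ε x ≠ 0 := by
      intro x
      rcases hε x with h | h <;> rw [h] <;> norm_num
    have key : ∀ (σ : L ≃ₐ[ℚ] L) (x : X), ε (σ • x) * t h0 = ε x * t (h0 * σ) := by
      intro σ x
      rw [← ht, ← ht, hTs]
    obtain ⟨K₂, _, _, _, h2, ⟨f⟩⟩ := exists_quad j ε w0 (hε0 w0) (fun w => by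
      have h1 : ε (cc L • w) * t h0 = -(ε w) * t h0 := by
        rw [neg_mul, ← ht, ← ht]
        exact hTo w h0
      exact mul_right_cancel₀ ht0 h1) (fun σ => by
      have h1 : ∀ w, ε (σ • w) * ε w0 = ε (σ • w0) * ε w := by
        intro w
        have h2 := key σ w
        have h3 := key σ w0
        have h4 : ε (σ • w) * ε w0 * t h0 = ε (σ • w0) * ε w * t h0 := by
          calc ε (σ • w) * ε w0 * t h0 = ε w0 * (ε (σ • w) * t h0) := by ring
            _ = ε w0 * (ε w * t (h0 * σ)) := by rw [h2]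
            _ = ε w * (ε w0 * t (h0 * σ)) := by ring
            _ = ε w * (ε (σ • w0) * t h0) := by rw [h3]
            _ = ε (σ • w0) * ε w * t h0 := by ring
        exact mul_right_cancel₀ ht0 h4
      have h5 : ε (σ • w0) = ε w0 ∨ ε (σ • w0) = -ε w0 := by
        rcases hε (σ • w0) with h | h <;> rcases hε w0 with h' | h' <;> rw [h, h'] <;> norm_num
      rcases h5 with h5 | h5
      · left
        intro w
        have h6 := h1 w
        rw [h5, mul_comm] at h6
        exact mul_left_cancel₀ (hε0 w0) h6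
      · right
        intro w
        have h6 := h1 w
        rw [h5] at h6
        have h7 : ε w0 * ε (σ • w) = ε w0 * -ε w := by linarith
        exact mul_left_cancel₀ (hε0 w0) h7)
    exact (hNQ K₂ h2).false f
  obtain ⟨x0, ε, hε⟩ := prime_orbit hset hℓ hℓ2 hcard (nn p ν j A) hTs hTo hinj
  -- the odd part
  let a : X → ℤ := fun φ => oddE e (E φ)
  have hac : ∀ φ, a (cc L • φ) = -a φ := by
    intro φ
    change oddE e (E (cc L • φ)) = -oddE e (E φ)
    rw [← hEc, oddE_conj]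
  have hsum : ∀ h, ∑ φ : X, a φ * nn p ν j A φ h = 0 := by
    intro h
    have h1 := hrel h
    have h2 : ∑ φ : X, (e (conjE (E φ)) : ℤ) * nn p ν j A φ h = 0 := by
      rw [← neg_eq_zero, ← Finset.sum_neg_distrib, ← h1]
      refine Fintype.sum_equiv (MulAction.toPerm (cc L)) _ _ fun φ => ?_
      change -((e (conjE (E φ)) : ℤ) * nn p ν j A φ h) =
        (e (E (cc L • φ)) : ℤ) * nn p ν j A (cc L • φ) h
      rw [hEc, hTo]
      ring
    have h3 : ∑ φ : X, a φ * nn p ν j A φ h =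
        ∑ φ : X, (e (E φ) : ℤ) * nn p ν j A φ h -
          ∑ φ : X, (e (conjE (E φ)) : ℤ) * nn p ν j A φ h := by
      rw [← Finset.sum_sub_distrib]
      refine Finset.sum_congr rfl fun φ _ => ?_
      change oddE e (E φ) * _ = _
      unfold oddE
      ring
    rw [h3, h1, h2, sub_zero]
  by_cases ha0 : ∀ φ, a φ = 0
  · intro w
    by_cases hw : w.1 = i
    · obtain ⟨φ, rfl⟩ := hE w hw
      exact ha0 φ
    · exact odd_supp (S := {i}) (fun w h => hs w h) hw
  exfalso
  push Not at ha0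
  obtain ⟨v0, hv0⟩ := ha0
  have hεa : ∀ (σ : L ≃ₐ[ℚ] L) x, a (σ • x) = ε x * a (σ • x0) := by
    intro σ x
    refine hε (fun x => a (σ • x)) (fun x => ?_) (fun h => ?_) x
    · rw [← mul_smul, ← hset.comm, mul_smul, hac]
    · have h1 := hsum (h * σ⁻¹)
      rw [← h1]
      refine Fintype.sum_equiv (MulAction.toPerm σ) _ _ fun φ => ?_
      change a (σ • φ) * nn p ν j A φ h = a (σ • φ) * nn p ν j A (σ • φ) (h * σ⁻¹)
      rw [hTs, inv_mul_cancel_right]
  have ha : ∀ (σ : L ≃ₐ[ℚ] L) (w w' : X), a (σ • w) * a w' = a (σ • w') * a w := by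
    intro σ w w'
    have h1 := hεa 1 w'
    have h2 := hεa 1 w
    rw [one_smul, one_smul] at h1 h2
    rw [hεa σ w, hεa σ w', h1, h2]
    ring
  have : Nonempty X := ⟨v0⟩
  obtain ⟨w1, hw1⟩ := Finite.exists_max fun w => |a w|
  have hw1' : a w1 ≠ 0 := by
    intro h
    have h1 := hw1 v0
    rw [h, abs_zero] at h1
    exact hv0 (abs_nonpos_iff.1 h1)
  have hpm : ∀ σ : L ≃ₐ[ℚ] L, (∀ w, a (σ • w) = a w) ∨ ∀ w, a (σ • w) = -a w := by
    intro σ
    have h1 := ha σ w1 (σ⁻¹ • w1)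
    have h2 : σ • σ⁻¹ • w1 = w1 := by rw [← mul_smul, mul_inv_cancel, one_smul]
    rw [h2] at h1
    have h3 : |a (σ • w1)| * |a (σ⁻¹ • w1)| = |a w1| * |a w1| := by
      rw [← abs_mul, ← abs_mul, h1]
    have h4 := hw1 (σ • w1)
    have h5 := hw1 (σ⁻¹ • w1)
    have h6 : 0 < |a w1| := abs_pos.2 hw1'
    have h7 : |a (σ • w1)| = |a w1| := by
      by_contra hne
      have h8 : |a (σ • w1)| < |a w1| := lt_of_le_of_ne h4 hne
      have h9 : 0 ≤ |a (σ • w1)| := abs_nonneg _
      nlinarith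
    rcases abs_eq_abs.1 h7 with h8 | h8
    · refine Or.inl fun w => ?_
      have h9 := ha σ w1 w
      rw [h8] at h9
      exact (mul_left_cancel₀ hw1' (by linarith)).symm
    · refine Or.inr fun w => ?_
      have h9 := ha σ w1 w
      rw [h8] at h9
      have h10 : a w1 * a (σ • w) = a w1 * -a w := by linarith
      exact mul_left_cancel₀ hw1' h10
  obtain ⟨K₂, _, _, _, h2, ⟨f⟩⟩ := exists_quad j a w1 hw1' hac hpm
  exact (hNQ K₂ h2).false f

/-- **Relations on an elliptic curve.** -/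
theorem elliptic_sym (hZ : Big Z.X j) (i : Z.X.I) (hdeg : finrank ℚ (Z.X.factor i).E = 2)
    (hss : ¬ IsSS p Z.a (Z.π i)) (e : Emb Z → ℕ) (he : IsRel Z e)
    (hs : ∀ w, e w ≠ 0 → w.1 = i) : ∀ w, oddE e w = 0 := by
  classical
  let A := Z.X.factor i
  let X := A.E →+* L
  have hfin' := finite_emb j A
  let _ : Fintype (A.E →+* L) := Fintype.ofFinite _
  have hset := setting j A (L := L)
  have hcard : Fintype.card X = 2 := (Pool.Agent.W495.TA.card_emb (hZ i)).trans hdeg
  have hTo : ∀ (φ : X) h, nn p ν j A (cc L • φ) h = -nn p ν j A φ h := fun φ h =>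
    congrFun (nn_cc A φ) h
  have hrel := (isRel_on hZ i e hs).1 he
  have hEc : ∀ φ : X, conjE (toEmb j Z ⟨i, φ⟩) = toEmb j Z ⟨i, cc L • φ⟩ := fun φ =>
    (toEmb_cw (j := j) (⟨i, φ⟩ : Wt Z.X L)).symm
  intro w
  by_cases hw : w.1 = i
  swap
  · exact odd_supp (S := {i}) (fun w h => hs w h) hw
  obtain ⟨k, ψ⟩ := w
  obtain rfl : k = i := hw
  obtain ⟨φ, rfl⟩ := hZ k ψ
  change oddE e (toEmb j Z ⟨k, φ⟩) = 0
  obtain ⟨h0, hh0⟩ := nn_ne_zero hZ k hss φ
  have h1 : ({φ, cc L • φ} : Finset X) = Finset.univ := by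
    refine Finset.eq_univ_of_card _ ?_
    rw [Finset.card_pair (hset.ne φ).symm, hcard]
  have h2 := hrel h0
  rw [← h1, Finset.sum_pair (hset.ne φ).symm, hTo, ← hEc] at h2
  have h3 : oddE e (toEmb j Z ⟨k, φ⟩) * nn p ν j (Z.X.factor k) φ h0 = 0 := by
    unfold oddE
    linarith
  exact (mul_eq_zero.1 h3).resolve_right hh0

/-- **All relations are symmetric.** -/
theorem sym_of_primes (h : HasPrimeFactors Z) : SymRel Z := by
  classical
  intro e he w
  have hne : Nonempty (Z.X.prod (single (kp p))).I := ⟨Sum.inr ()⟩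
  obtain ⟨L, _, _, _, _, j, hj⟩ := exists_cm (Z.X.prod (single (kp p)))
  have hZ : Big Z.X j := fun i ψ => hj (Sum.inl i) ψ
  let b : Z.X.I → ℕ := fun i => (Fintype.equivFin Z.X.I i : ℕ)
  have hbinj : Function.Injective b := fun i k hik =>
    (Fintype.equivFin Z.X.I).injective (Fin.ext hik)
  have hb : ∀ i k, b i ≠ b k → Apart (Z.X.factor i).E (Z.X.factor k).E := fun i k hik =>
    h.apart i k fun h' => hik (by rw [h'])
  have hrel := block_rel hZ b hb he (b w.1)
  have hsupp : ∀ v : Emb Z, (if b v.1 = b w.1 then e v else 0) ≠ 0 → v.1 = w.1 := by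
    intro v hv
    by_contra hne
    apply hv
    exact if_neg fun h' => hne (hbinj h')
  have h1 : oddE (fun v => if b v.1 = b w.1 then e v else 0) w = 0 := by
    rcases h.field w.1 with hdeg | ⟨ℓ, hℓ, hℓ2, hdeg, hNQ⟩
    · exact elliptic_sym hZ w.1 hdeg (h.notSupersingular w.1) _ hrel hsupp w
    · exact prime_sym hZ w.1 hℓ hℓ2 hdeg hNQ (h.notSupersingular w.1) _ hrel hsupp w
  have h2 : oddE (fun v => if b v.1 = b w.1 then e v else 0) w = oddE e w := by
    have h3 : b (conjE w).1 = b w.1 := rfl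
    have h4 : (if b w.1 = b w.1 then e w else 0) = e w := if_pos rfl
    have h5 : (if b (conjE w).1 = b w.1 then e (conjE w) else 0) = e (conjE w) := if_pos h3
    change (((if b w.1 = b w.1 then e w else 0 : ℕ)) : ℤ) -
      (((if b (conjE w).1 = b w.1 then e (conjE w) else 0 : ℕ)) : ℤ) = _
    rw [h4, h5]
    rfl
  rw [← h2]
  exact h1

end

end Pool.Agent.T9h37.NP
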