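import Pool.Agent.T9h37.NP.Orb
import Pool.Agent.T9h37.NP.Sym

/-!
# Fields generated by conjugates
-/

set_option autoImplicit false
set_option linter.unusedSectionVars false
set_option linter.unusedVariables false

namespace Pool.Agent.T9h37.NP

open Polynomial NumberField Pool.Agent.H204R3.CM Pool.Agent.W547.KB Pool.Agent.W547.LD
  Pool.Agent.W547.HR Pool.Agent.W495.TA Module Pool.Agent.TH117.PO Pool.Agent.W976.TA
  Pool.Agent.W417.TA Pool.Agent.TH117.BL Pool.Agent.W495.TC Pool.Agent.W495.TB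
  Pool.Agent.TH117.F5 Pool.Agent.N202.QR Pool.Agent.W495.FM Pool.Agent.TH117.GN Pool.Agent.T9h37.PP
open Pool.Agent.T9h37.CT (NoQuadratic exists_quad)

noncomputable section

theorem conj_pow {F K : Type*} [Field F] [Field K] [Algebra F K] [IsAlgClosed K] {β z : K}
    (hβ : IsAlgebraic F β) {N : ℕ} (hz : aeval z (minpoly F (β ^ N)) = 0) :
    ∃ β' : K, aeval β' (minpoly F β) = 0 ∧ z = β' ^ N := by
  have hclo : IsAlgClosure F (algebraicClosure F K) := algebraicClosure.isAlgClosure F K
  have hnorm : Normal F (algebraicClosure F K) := IsAlgClosure.normal F _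
  have hint : IsIntegral F (β ^ N) := (isAlgebraic_iff_isIntegral.1 hβ).pow N
  have hzalg : IsAlgebraic F z := ⟨minpoly F (β ^ N), minpoly.ne_zero hint, hz⟩
  let β₀ : algebraicClosure F K := ⟨β, mem_algebraicClosure_iff.2 hβ⟩
  let z₀ : algebraicClosure F K := ⟨z, mem_algebraicClosure_iff.2 hzalg⟩
  let ι : algebraicClosure F K →ₐ[F] K := (algebraicClosure F K).val
  have h1 : minpoly F (β₀ ^ N) = minpoly F (β ^ N) := by
    have h2 := minpoly.algHom_eq ι ι.injective (β₀ ^ N)
    rw [← h2, map_pow]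
    rfl
  have h3 : minpoly F β₀ = minpoly F β := (minpoly.algHom_eq ι ι.injective β₀).symm
  have h4 : aeval z₀ (minpoly F (β₀ ^ N)) = 0 := by
    have h6 : ι (aeval z₀ (minpoly F (β₀ ^ N))) = 0 := by
      rw [← Polynomial.aeval_algHom_apply, h1]
      exact hz
    exact (map_eq_zero_iff ι ι.injective).1 h6
  have h5 : IsAlgebraic F (β₀ ^ N) :=
    isAlgebraic_iff_isIntegral.2 ((isAlgebraic_iff_isIntegral.1 (by
      have h6 : IsAlgebraic F (ι β₀) := hβ
      exact (isAlgebraic_algHom_iff ι ι.injective).1 h6)).pow N)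
  obtain ⟨σ, hσ⟩ := minpoly.exists_algEquiv_of_root h5 h4
  refine ⟨ι (σ.symm β₀), ?_, ?_⟩
  · rw [Polynomial.aeval_algHom_apply, ← h3]
    have h6 : aeval (σ.symm β₀) (minpoly F β₀) = σ.symm (aeval β₀ (minpoly F β₀)) :=
      Polynomial.aeval_algHom_apply (σ.symm : algebraicClosure F K →ₐ[F] algebraicClosure F K) β₀ _
    rw [h6, minpoly.aeval, map_zero, map_zero]
  · have h6 : z₀ = (σ.symm β₀) ^ N := by
      apply σ.injective
      rw [hσ, map_pow, AlgEquiv.apply_symm_apply]
    have h7 := congrArg ι h6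
    rw [map_pow] at h7
    exact h7

theorem conjField_pow {K : Type*} [Field K] [CharZero K] [IsAlgClosed K] {β : K}
    (hβ : IsAlgebraic ℚ β) (N : ℕ) : conjField (β ^ N) ≤ conjField β := by
  refine Subfield.closure_le.2 fun z hz => ?_
  obtain ⟨β', h1, rfl⟩ := conj_pow hβ hz
  have h2 : β' ∈ conjField β := Subfield.subset_closure h1
  exact pow_mem h2 N

section

variable {L : Type} [Field L] [NumberField L] [IsCMField L] [IsGalois ℚ L]
variable {p : ℕ} [Fact p.Prime] {ν : PadicAlgCl p ≃+* ℂ} {j : L →+* ℂ} {Z : RedAV p ν}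
variable {K : Type} [Field K] [IsAlgClosed K] [CharZero K]

/-- **The automorphism.** If the CM field of a factor is not contained in the Galois closure of the field
generated by `ρ ^ n`, then some automorphism fixes a power of `ρ` and is the complex conjugation on this
field. -/
theorem exists_of_outside (hZ : Big Z.X j) (κ : L →+* K) (w : Wt Z.X L)
    (hE : IsPrimeField (Z.X.factor w.1).E) {ρ : K} (hρ : IsAlgebraic ℚ ρ) {n N : ℕ} (y : L)
    (hy : κ y = ρ ^ N)
    (hout : ∀ ψ : (Z.X.factor w.1).E →+* K, ∃ x, ψ x ∉ conjField (ρ ^ n)) :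
    ∃ τ : L ≃ₐ[ℚ] L, τ (y ^ n) = y ^ n ∧ τ • w.2 = cc L • w.2 := by
  classical
  let E := (Z.X.factor w.1).E
  have hfin : Finite (E →+* L) := finite_emb j (Z.X.factor w.1)
  let _ : Fintype (E →+* L) := Fintype.ofFinite _
  have hcard : Fintype.card (E →+* L) = finrank ℚ E := Pool.Agent.W495.TA.card_emb (hZ w.1)
  have hset : Setting (L ≃ₐ[ℚ] L) (E →+* L) (cc L) := setting j (Z.X.factor w.1)
  have hN : Normal ℚ L := inferInstance
  set P := minpoly ℚ (y ^ n) with hP
  have hfact : Fact ((P.map (algebraMap ℚ L)).Splits) := ⟨hN.splits _⟩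
  let R : (L ≃ₐ[ℚ] L) →* P.Gal := Polynomial.Gal.restrict P L
  have hfix : ∀ τ ∈ R.ker, τ (y ^ n) = y ^ n := by
    intro τ hτ
    rw [MonoidHom.mem_ker] at hτ
    have hy : y ^ n ∈ P.rootSet L := by
      rw [Polynomial.mem_rootSet]
      exact ⟨minpoly.ne_zero (Algebra.IsIntegral.isIntegral _), minpoly.aeval ℚ (y ^ n)⟩
    have h1 := Polynomial.Gal.restrict_smul (p := P) (E := L) τ ⟨y ^ n, hy⟩
    rw [show Polynomial.Gal.restrict P L τ = 1 from hτ, one_smul] at h1
    exact h1.symm
  have hker : ∀ τ : L ≃ₐ[ℚ] L, (∀ z ∈ P.rootSet L, τ z = z) → τ ∈ R.ker := by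
    intro τ hτ
    rw [MonoidHom.mem_ker]
    apply Polynomial.Gal.galActionHom_injective P L
    rw [map_one]
    ext z
    have h1 := Polynomial.Gal.restrict_smul (p := P) (E := L) τ z
    change ((R τ) • z : P.rootSet L).1 = z.1
    rw [h1]
    exact hτ z.1 z.2
  by_contra hcon
  push Not at hcon
  by_cases hmove : ∃ n₁ ∈ R.ker, n₁ • w.2 ≠ w.2
  · obtain ⟨n₁, hn₁, hmove⟩ := hmove
    rcases hE with h2 | ⟨ℓ, hℓ, hℓ2, hdeg, hNQ⟩
    · have h3 : Fintype.card (E →+* L) = 2 := hcard.trans h2
      have h4 : ({w.2, cc L • w.2} : Finset (E →+* L)) = Finset.univ := by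
        refine Finset.eq_univ_of_card _ ?_
        rw [Finset.card_pair (hset.ne w.2).symm, h3]
      have h5 : n₁ • w.2 ∈ ({w.2, cc L • w.2} : Finset (E →+* L)) := by
        rw [h4]
        exact Finset.mem_univ _
      rw [Finset.mem_insert, Finset.mem_singleton] at h5
      rcases h5 with h5 | h5
      · exact hmove h5
      · exact hcon n₁ (hfix n₁ hn₁) h5
    · obtain ⟨a, ha, hodd, hpm⟩ := prime_orbits' hset hℓ hℓ2 (hcard.trans hdeg) R.ker w.2
        (fun τ hτ => hcon τ (hfix τ hτ)) hn₁ hmove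
      obtain ⟨K₂, _, _, _, h2, ⟨f⟩⟩ := exists_quad j a w.2 (by rw [ha]; norm_num) hodd hpm
      exact (hNQ K₂ h2).false f
  · push Not at hmove
    obtain ⟨x, hx⟩ := hout (κ.comp w.2)
    apply hx
    -- the image of `E` is in the splitting field
    set F₀ := IntermediateField.adjoin ℚ (P.rootSet L) with hF₀
    have h1 : w.2 x ∈ F₀ := by
      have h2 : F₀ = IntermediateField.fixedField F₀.fixingSubgroup :=
        (IsGalois.fixedField_fixingSubgroup F₀).symm
      rw [h2, IntermediateField.mem_fixedField_iff]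
      intro τ hτ
      rw [IntermediateField.mem_fixingSubgroup_iff] at hτ
      have h3 : τ ∈ R.ker := hker τ fun z hz => hτ z (IntermediateField.subset_adjoin ℚ _ hz)
      exact RingHom.congr_fun (hmove τ h3) x
    have h2 : κ (w.2 x) ∈ conjField ((ρ ^ n) ^ N) := by
      have hPK : P = minpoly ℚ ((ρ ^ n) ^ N) := by
        have h3 : κ (y ^ n) = (ρ ^ n) ^ N := by
          rw [map_pow, hy, ← pow_mul, ← pow_mul, mul_comm]
        rw [hP, ← h3]
        exact (minpoly.algHom_eq (RingHom.toRatAlgHom κ) κ.injective (y ^ n)).symm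
      clear hx hmove hker hfix hcon hout
      generalize w.2 x = u₀ at h1 ⊢
      induction h1 using IntermediateField.adjoin_induction with
      | mem u hu =>
        refine Subfield.subset_closure ?_
        change aeval (κ u) (minpoly ℚ ((ρ ^ n) ^ N)) = 0
        rw [← hPK]
        have h3 := Polynomial.aeval_algHom_apply (RingHom.toRatAlgHom κ) u P
        have h4 : (RingHom.toRatAlgHom κ) u = κ u := rfl
        rw [h4] at h3
        rw [h3, (Polynomial.mem_rootSet.1 hu).2, map_zero]
      | algebraMap q =>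
        have h3 : κ (algebraMap ℚ L q) = (q : K) := by simp
        rw [h3]
        exact SubfieldClass.ratCast_mem _ q
      | add u v _ _ hu hv => rw [map_add]; exact add_mem hu hv
      | inv u _ hu => rw [map_inv₀]; exact inv_mem hu
      | mul u v _ _ hu hv => rw [map_mul]; exact mul_mem hu hv
    exact conjField_pow (isAlgebraic_iff_isIntegral.2
      ((isAlgebraic_iff_isIntegral.1 hρ).pow n)) N h2

end

end

end Pool.Agent.T9h37.NP
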